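import Pool.Agent.Helper55.CF.Goals

/-! TYPE1 -/

open MeasureTheory Complex
open scoped ContDiff ComplexConjugate

noncomputable section
namespace CF55

/-- a radial bump -/
theorem exists_radial_bump (r : ℝ) (hr : 0 < r) : ∃ (χ : ℂ → ℝ) (s : ℝ), 0 < s ∧ s < r ∧
    ContDiff ℝ ∞ χ ∧ (∀ y, s < ‖y‖ → χ y = 0) ∧ (∀ y, χ y = χ (‖y‖ : ℂ)) ∧ (∀ y, 0 ≤ χ y) ∧
    ∀ᶠ y in nhds 0, χ y = 1 := by
  have hr2 : (0 : ℝ) < (r / 2) ^ 2 := by positivity
  refine ⟨fun y => Real.smoothTransition (2 - ‖y‖ ^ 2 / (r / 2) ^ 2), 3 / 4 * r, by positivity,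
    by linarith, ?_, ?_, ?_, ?_, ?_⟩
  · exact Real.smoothTransition.contDiff.comp
      (contDiff_const.sub ((contDiff_norm_sq ℝ).div_const _))
  · intro y hy
    apply Real.smoothTransition.zero_of_nonpos
    have h1 : (3 / 4 * r) ^ 2 < ‖y‖ ^ 2 := by
      apply pow_lt_pow_left₀ hy (by positivity) (by norm_num)
    have h2 : 2 ≤ ‖y‖ ^ 2 / (r / 2) ^ 2 := by
      rw [le_div_iff₀ hr2]
      nlinarith
    linarith
  · intro y
    simp
  · intro y
    exact Real.smoothTransition.nonneg _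
  · have h1 : ∀ᶠ y : ℂ in nhds 0, y ∈ Metric.ball (0 : ℂ) (r / 2) :=
      Metric.ball_mem_nhds _ (by positivity)
    filter_upwards [h1] with y hy
    apply Real.smoothTransition.one_of_one_le
    rw [mem_ball_zero_iff] at hy
    have h2 : ‖y‖ ^ 2 / (r / 2) ^ 2 ≤ 1 := by
      rw [div_le_one hr2]
      exact pow_le_pow_left₀ (norm_nonneg _) hy.le 2
    linarith

theorem stmtTYPE1 (hK : G_KEY 2) (hN : G_N1) (hL : G_LB1) : G_TYPE1 := by
  intro w d h hd hsum hbox hcont hgood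
  set f : E → ℂ := fun q : E => q.1 ^ 2 + q.2.1 ^ 2 + h q.2.2 with hf
  have hfc : Continuous f := by
    rw [hf]
    fun_prop
  obtain ⟨r, hr, hKr⟩ := hK f hfc hgood
  obtain ⟨χ, s, hs0, hsr, hχ1, hχ2, hχ3, hχ4, hχ5⟩ := exists_radial_bump r hr
  have hχc : HasCompactSupport χ := by
    refine HasCompactSupport.intro (isCompact_closedBall (0 : ℂ) s) fun y hy => ?_
    apply hχ2
    rw [Metric.mem_closedBall, dist_zero_right] at hy
    exact not_le.mp hy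
  obtain ⟨c, K, hc, hαK⟩ := hN χ hχ1 hχc hχ3 hχ4 hχ5
  -- the bump on `Z`
  let φ : ContDiffBump (0 : Z) := ⟨s / 2, s, by positivity, by linarith⟩
  have hφ2 : ∀ z : Z, s < ‖z‖ → φ z = 0 := by
    intro z hz
    apply φ.zero_of_le_dist
    rw [dist_zero_right]
    exact hz.le
  have hφ1 : ∀ᶠ z : Z in nhds 0, φ z = 1 := φ.eventuallyEq_one
  have hφi : Integrable (fun z : Z => φ z) := φ.continuous.integrable_of_hasCompactSupport
    φ.hasCompactSupport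
  set ψ : E → ℝ := fun q => χ q.1 * (χ q.2.1 * φ q.2.2) with hψ
  have hψ0 : ∀ q : E, q ∉ Metric.closedBall (0 : E) s → ψ q = 0 := by
    intro q hq
    rw [Metric.mem_closedBall, dist_zero_right, not_le] at hq
    rw [Prod.norm_def, Prod.norm_def, lt_max_iff, lt_max_iff] at hq
    rw [hψ]
    rcases hq with hq | hq | hq
    · simp only; rw [hχ2 _ hq, zero_mul]
    · simp only; rw [hχ2 _ hq, zero_mul, mul_zero]
    · simp only; rw [hφ2 _ hq, mul_zero, mul_zero]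
  have hψc : HasCompactSupport ψ := HasCompactSupport.intro (isCompact_closedBall (0 : E) s)
    fun q hq => hψ0 q hq
  have hψs : tsupport ψ ⊆ Metric.ball 0 r := by
    have h1 : tsupport ψ ⊆ Metric.closedBall (0 : E) s := by
      apply closure_minimal _ Metric.isClosed_closedBall
      intro q hq
      by_contra hc
      exact hq (hψ0 q hc)
    exact h1.trans (Metric.closedBall_subset_ball hsr)
  have hψd : ContDiff ℝ ∞ ψ := by
    rw [hψ]
    exact (hχ1.comp contDiff_fst).mul ((hχ1.comp (contDiff_fst.comp contDiff_snd)).mul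
      (φ.contDiff.comp (contDiff_snd.comp contDiff_snd)))
  set α : ℂ → ℂ := fun σ => ∫ y : ℂ, cexp (I * ((σ * y ^ 2).re : ℂ)) * χ y with hα
  set ν : ℂ → ℂ := fun σ => ∫ z : Z, cexp (I * ((σ * h z).re : ℂ)) * φ z with hν
  have hA : ∀ σ : ℂ, ∫ x, cexp (I * ((σ * f x).re : ℂ)) * ψ x = α σ * (α σ * ν σ) := by
    intro σ
    have h1 : (fun x : E => cexp (I * ((σ * f x).re : ℂ)) * (ψ x : ℂ)) =
        fun x : E => (fun y : ℂ => cexp (I * ((σ * y ^ 2).re : ℂ)) * (χ y : ℂ)) x.1 *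
          (fun t : ℂ × Z => (fun y : ℂ => cexp (I * ((σ * y ^ 2).re : ℂ)) * (χ y : ℂ)) t.1 *
            (fun z : Z => cexp (I * ((σ * h z).re : ℂ)) * (φ z : ℂ)) t.2) x.2 := by
      funext x
      simp only [hf, hψ]
      have h2 : I * (((σ * (x.1 ^ 2 + x.2.1 ^ 2 + h x.2.2)).re : ℝ) : ℂ) =
          I * ((σ * x.1 ^ 2).re : ℂ) + (I * ((σ * x.2.1 ^ 2).re : ℂ) +
            I * ((σ * h x.2.2).re : ℂ)) := by
        rw [mul_add, mul_add, Complex.add_re, Complex.add_re]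
        push_cast
        ring
      rw [h2, Complex.exp_add, Complex.exp_add]
      push_cast
      ring
    have e1 := MeasureTheory.integral_prod_mul (μ := (volume : Measure ℂ))
      (ν := (volume : Measure (ℂ × Z)))
      (fun y : ℂ => cexp (I * ((σ * y ^ 2).re : ℂ)) * (χ y : ℂ))
      (fun t : ℂ × Z => (fun y : ℂ => cexp (I * ((σ * y ^ 2).re : ℂ)) * (χ y : ℂ)) t.1 *
            (fun z : Z => cexp (I * ((σ * h z).re : ℂ)) * (φ z : ℂ)) t.2)
    have e2 := MeasureTheory.integral_prod_mul (μ := (volume : Measure ℂ))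
      (ν := (volume : Measure Z))
      (fun y : ℂ => cexp (I * ((σ * y ^ 2).re : ℂ)) * (χ y : ℂ))
      (fun z : Z => cexp (I * ((σ * h z).re : ℂ)) * (φ z : ℂ))
    rw [h1]
    refine e1.trans ?_
    exact congrArg (fun t => α σ * t) e2
  have hνb : ∀ σ, ‖ν σ‖ ≤ ∫ z : Z, φ z := by
    intro σ
    refine norm_integral_le_of_norm_le hφi (Filter.Eventually.of_forall fun z => ?_)
    rw [norm_mul, mul_comm I, Complex.norm_exp_ofReal_mul_I, one_mul, Complex.norm_real,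
      Real.norm_eq_abs, abs_of_nonneg φ.nonneg]
  have hφI : 0 ≤ ∫ z : Z, φ z := integral_nonneg fun z => φ.nonneg
  have hK0 : 0 ≤ K := by
    have h1 := hαK 1 (by simp)
    have h2 := (norm_nonneg _).trans h1
    simpa using h2
  refine hL w d h hd hsum hbox hcont (fun z => φ z) φ.contDiff φ.hasCompactSupport
    (fun z => φ.nonneg) hφ1 ?_
  refine hKr ψ hψd hψc hψs (fun z => φ z) h (fun z => φ.nonneg) hφi hcont.measurable (c ^ 2)
    (K * (K + 2 * c) * ∫ z : Z, φ z) (by positivity) ?_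
  intro σ hσ
  have hσ0 : 0 < ‖σ‖ := lt_of_lt_of_le one_pos hσ
  have h1 : (∫ x, cexp (I * ((σ * f x).re : ℂ)) * ψ x) -
      ((c ^ 2 / ‖σ‖ ^ 2 : ℝ) : ℂ) * ∫ z : Z, cexp (I * ((σ * h z).re : ℂ)) * φ z =
      (α σ - (c / ‖σ‖ : ℝ)) * ((α σ - (c / ‖σ‖ : ℝ)) + 2 * (c / ‖σ‖ : ℝ)) * ν σ := by
    rw [hA]
    push_cast
    ring
  rw [h1, norm_mul, norm_mul]
  have h2 : ‖α σ - ((c / ‖σ‖ : ℝ) : ℂ)‖ ≤ K / ‖σ‖ ^ 4 := by
    have := hαK σ hσ
    push_cast
    exact this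
  have h3 : ‖(α σ - ((c / ‖σ‖ : ℝ) : ℂ)) + 2 * ((c / ‖σ‖ : ℝ) : ℂ)‖ ≤ K + 2 * c := by
    refine (norm_add_le _ _).trans ?_
    have h4 : K / ‖σ‖ ^ 4 ≤ K := div_le_self hK0 (one_le_pow₀ hσ)
    have h5 : ‖(2 : ℂ) * ((c / ‖σ‖ : ℝ) : ℂ)‖ ≤ 2 * c := by
      rw [norm_mul, Complex.norm_real, Real.norm_eq_abs, abs_of_pos (by positivity)]
      have : c / ‖σ‖ ≤ c := div_le_self hc.le hσ
      simp
      linarith
    linarith [h2.trans h4]
  calc ‖α σ - ((c / ‖σ‖ : ℝ) : ℂ)‖ * ‖(α σ - ((c / ‖σ‖ : ℝ) : ℂ)) + 2 * ((c / ‖σ‖ : ℝ) : ℂ)‖ *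
        ‖ν σ‖ ≤ (K / ‖σ‖ ^ 4) * (K + 2 * c) * ∫ z : Z, φ z := by
        gcongr
        exact hνb σ
    _ = K * (K + 2 * c) * (∫ z : Z, φ z) / ‖σ‖ ^ 4 := by ring

end CF55
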